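import Pool.Agent.H7.HD.Targets9
import Pool.Agent.H87.HD.XF
import Pool.Agent.H54.HD.LA
import Pool.Agent.H20.HD.XA
import Pool.Agent.H4.HD.XB

/-!
# MP_e37c09_lc, module GE: weakly normal ultrafilters from an extendible cardinal
-/

open Ordinal Cardinal Order Set
open scoped ZFSet

universe u

namespace Pool.Agent.H54.NF.GE

open _root_.HD

/-- `z` is a nonzero limit ordinal, as a formula -/
def LimF (z : ZFSet.{u}) : Prop := (∃ x ∈ z, x = x) ∧ ∀ x ∈ z, ∃ y ∈ z, x ∈ y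

theorem limF_iff {a : Ordinal.{u}} : LimF a.toZFSet ↔ IsSuccLimit a := by
  rw [Ordinal.isSuccLimit_iff, Order.isSuccPrelimit_iff_succ_lt]
  unfold LimF
  constructor
  · rintro ⟨⟨x, hx, -⟩, h⟩
    obtain ⟨b, hb, rfl⟩ := mem_toZFSet_iff.1 hx
    refine ⟨(bot_le.trans_lt hb).ne', fun c hc => ?_⟩
    obtain ⟨y, hy, hcy⟩ := h _ (toZFSet_mem_toZFSet_iff.2 hc)
    obtain ⟨d, hd, rfl⟩ := mem_toZFSet_iff.1 hy
    exact (Order.succ_le_of_lt (toZFSet_mem_toZFSet_iff.1 hcy)).trans_lt hd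
  · rintro ⟨h0, h⟩
    refine ⟨⟨(0 : Ordinal.{u}).toZFSet, toZFSet_mem_toZFSet_iff.2 (pos_iff_ne_zero.2 h0), rfl⟩, fun x hx => ?_⟩
    obtain ⟨b, hb, rfl⟩ := mem_toZFSet_iff.1 hx
    exact ⟨(succ b).toZFSet, toZFSet_mem_toZFSet_iff.2 (h b hb),
      toZFSet_mem_toZFSet_iff.2 (Order.lt_succ b)⟩

theorem loc_limF (i : ℕ) : Loc.{u} (fun v => LimF (v i)) := by
  refine Loc.and ?_ ?_
  · exact Loc.exMem (R := fun x _ => x = x) i (Loc.eq 0 0)
  · exact Loc.allMem (R := fun x v => ∃ y ∈ v i, x ∈ y) i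
      (Loc.exMem (R := fun y v => v 0 ∈ y) (i + 1) (Loc.mem 1 0))

section

variable {δ η θ : Ordinal.{u}} {j : ZFSet.{u} → ZFSet.{u}}

theorem os_V (h : Emb δ η θ j) {κ : Ordinal.{u}} (hκ : κ < η) (X : Set Ordinal.{u}) :
    os κ X ∈ V_ η :=
  mem_V_of_sub (fun y hy => by
    obtain ⟨a, ha, -, rfl⟩ := mem_os.1 hy
    exact toZFSet_mem_toZFSet_iff.2 ha) (Gd.ord.2 hκ)

theorem rs_V (h : Emb δ η θ j) {α β : Ordinal.{u}} (hα : α < η) (hβ : β < η)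
    (R : Ordinal.{u} → Ordinal.{u} → Prop) : rs α β R ∈ V_ η :=
  mem_V_of_sub (fun y hy => by
    obtain ⟨a, ha, b, hb, -, rfl⟩ := mem_rs.1 hy
    exact ZFSet.pair_mem_prod.2 ⟨toZFSet_mem_toZFSet_iff.2 ha, toZFSet_mem_toZFSet_iff.2 hb⟩)
    (h.gd.prod (Gd.ord.2 hα) (Gd.ord.2 hβ))

/-- transfer of a statement about all elements of `κ` -/
theorem tra (h : Emb δ η θ j) {R : ZFSet.{u} → (ℕ → ZFSet.{u}) → Prop}
    (hR : Loc fun v => R (v 0) (fun n => v (n + 1))) {κ : Ordinal.{u}} (hκ : κ < η)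
    (l : List ZFSet.{u}) (hl : ∀ x ∈ l, x ∈ V_ η)
    (hh : ∀ a < κ, R a.toZFSet (sv (κ.toZFSet :: l))) :
    ∀ a < Jo j κ, R a.toZFSet (sv ((Jo j κ).toZFSet :: l.map j)) := by
  have hL : Loc.{u} (fun v => ∀ z ∈ v 0, R z v) := Loc.allMem (R := R) 0 hR
  have h1 := (h.trl hL (κ.toZFSet :: l) (by
    intro x hx
    rcases List.mem_cons.1 hx with rfl | hx
    · exact Gd.ord.2 hκ
    · exact hl x hx)).1 (by
    intro z hz
    obtain ⟨a, ha, rfl⟩ := mem_toZFSet_iff.1 hz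
    exact hh a ha)
  intro a ha
  have h2 := h1 a.toZFSet (by
    show a.toZFSet ∈ j κ.toZFSet
    rw [h.ord hκ]
    exact toZFSet_mem_toZFSet_iff.2 ha)
  have e : j κ.toZFSet :: l.map j = (Jo j κ).toZFSet :: l.map j := by rw [h.ord hκ]
  rw [← e]
  exact h2

/-- the bound `ρ` of the image of `κ` -/
theorem exists_rho (h : Emb δ η θ j) {κ : Ordinal.{u}} (hκ : κ < η) (hlim : IsSuccLimit κ)
    (hcf : δ ≤ κ.cof.ord) : ∃ ρ < Jo j κ, (∀ x < κ, Jo j x < ρ) ∧ (∀ y < ρ, ∃ x < κ, y < Jo j x) ∧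
      IsSuccLimit ρ ∧ ρ.cof.ord < Jo j δ := by
  -- the least upper bound
  have hex : ∃ ρ : Ordinal.{u}, ∀ x < κ, Jo j x < ρ :=
    ⟨Jo j κ, fun x hx => (h.lt_iff (hx.trans hκ) hκ).2 hx⟩
  obtain ⟨ρ, hρ1, hρm⟩ : ∃ ρ : Ordinal.{u}, (∀ x < κ, Jo j x < ρ) ∧
      ∀ y < ρ, ¬ ∀ x < κ, Jo j x < y :=
    ⟨sInf {ρ | ∀ x < κ, Jo j x < ρ}, csInf_mem (s := {ρ : Ordinal.{u} | ∀ x < κ, Jo j x < ρ}) hex,
      fun y hy hh => absurd (csInf_le' (s := {ρ : Ordinal.{u} | ∀ x < κ, Jo j x < ρ}) hh)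
        (not_le.2 hy)⟩
  have hρ2 : ∀ y < ρ, ∃ x < κ, y < Jo j x := by
    intro y hy
    have := hρm y hy
    push Not at this
    obtain ⟨x, hx, hxy⟩ := this
    refine ⟨succ x, hlim.succ_lt hx, lt_of_le_of_lt hxy ?_⟩
    exact (h.lt_iff (hx.trans hκ) ((hlim.succ_lt hx).trans hκ)).2 (Order.lt_succ x)
  have hρle : ρ ≤ Jo j κ := by
    by_contra hlt
    push Not at hlt
    exact hρm _ hlt fun x hx => (h.lt_iff (hx.trans hκ) hκ).2 hx
  have hcof : κ.cof = ρ.cof := Pool.Agent.H87.HD.XF.cof_eq (Jo j)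
    (fun a b hab hb => (h.lt_iff ((hab.trans hb).trans hκ) (hb.trans hκ)).2 hab) hρ1 hρ2
  have hκc : κ.cof.ord ≤ κ := Ordinal.ord_cof_le κ
  have hsm : ρ.cof.ord < Jo j δ := by
    rw [← hcof]
    exact (hκc.trans_lt hκ).trans h.Jo_crit
  have hne : ρ ≠ Jo j κ := by
    intro he
    have hla := Pool.Agent.H54.HD.LA.X.{u}
    have h1 := (h.trl hla [κ.cof.ord.toZFSet, κ.toZFSet] (by
      simp only [List.mem_cons, List.not_mem_nil, or_false, forall_eq_or_imp, forall_eq]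
      exact ⟨Gd.ord.2 (hκc.trans_lt hκ), Gd.ord.2 hκ⟩)).1
      ⟨by simpa using ZFSet.isOrdinal_toZFSet _, by simpa using ZFSet.isOrdinal_toZFSet _, by
        simp [Cf, rank_toZFSet]⟩
    have h2 : (Jo j κ).cof.ord = Jo j κ.cof.ord := by
      have := h1.2.2
      simpa [Cf, Jo] using this
    rw [← he] at h2
    have h3 : Jo j δ ≤ Jo j κ.cof.ord := (h.le_iff h.dlt (hκc.trans_lt hκ)).2 hcf
    exact absurd (h3.trans h2.symm.le) (not_le.2 hsm)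
  have hρpos : 0 < ρ := bot_le.trans_lt (hρ1 0 hlim.bot_lt)
  refine ⟨ρ, lt_of_le_of_ne hρle hne, hρ1, hρ2, ?_, hsm⟩
  rw [Ordinal.isSuccLimit_iff, Order.isSuccPrelimit_iff_succ_lt]
  refine ⟨hρpos.ne', fun y hy => ?_⟩
  obtain ⟨x, hx, hxy⟩ := hρ2 y hy
  exact (Order.succ_le_of_lt hxy).trans_lt (hρ1 x hx)

/-- the ultrafilter of the sets `X` with `ρ ∈ j X` -/
noncomputable def ufl (h : Emb δ η θ j) (κ ρ : Ordinal.{u}) (hκ : κ < η) (hρ : ρ < Jo j κ) :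
    Ultrafilter Ordinal.{u} :=
  Ultrafilter.ofComplNotMemIff
    { sets := {X | ρ.toZFSet ∈ j (os κ X)}
      univ_sets := by
        have : os κ univ = κ.toZFSet := by
          ext z
          rw [mem_os, mem_toZFSet_iff]
          simp [eq_comm]
        show ρ.toZFSet ∈ j (os κ univ)
        rw [this, h.ord hκ]
        exact toZFSet_mem_toZFSet_iff.2 hρ
      sets_of_superset := by
        intro X Y hX hXY
        have : os κ X ⊆ os κ Y := by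
          intro z hz
          obtain ⟨a, ha, haX, rfl⟩ := mem_os.1 hz
          exact ord_mem_os.2 ⟨ha, hXY haX⟩
        have h2 := (h.sub (os_V h hκ X) (os_V h hκ Y)).1 this
        exact h2 (show ρ.toZFSet ∈ j (os κ X) from hX)
      inter_sets := by
        intro X Y hX hY
        have := tra h (R := fun z v => z ∈ v 1 → z ∈ v 2 → z ∈ v 3)
          ((Loc.mem 0 2).imp ((Loc.mem 0 3).imp (Loc.mem 0 4))) hκ
          [os κ X, os κ Y, os κ (X ∩ Y)] (by simp [os_V h hκ])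
          (by
            intro a ha h1 h2
            exact ord_mem_os.2 ⟨ha, (ord_mem_os.1 h1).2, (ord_mem_os.1 h2).2⟩) ρ hρ
        exact this hX hY }
    (by
      intro X
      have h1 := tra h (R := fun z v => z ∈ v 1 ∨ z ∈ v 2)
          ((Loc.mem 0 2).or (Loc.mem 0 3)) hκ
          [os κ X, os κ Xᶜ] (by simp [os_V h hκ])
          (by
            intro a ha
            by_cases haX : a ∈ X
            · exact Or.inl (ord_mem_os.2 ⟨ha, haX⟩)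
            · exact Or.inr (ord_mem_os.2 ⟨ha, haX⟩)) ρ hρ
      have h2 := tra h (R := fun z v => z ∈ v 1 → ¬ z ∈ v 2)
          ((Loc.mem 0 2).imp (Loc.mem 0 3).not) hκ
          [os κ X, os κ Xᶜ] (by simp [os_V h hκ])
          (by
            intro a ha h3 h4
            exact (ord_mem_os.1 h4).2 (ord_mem_os.1 h3).2) ρ hρ
      constructor
      · intro hn
        rcases h1 with h1 | h1
        · exact h1
        · exact absurd h1 hn
      · intro hX hXc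
        exact h2 hX hXc)

theorem mem_ufl (h : Emb δ η θ j) {κ ρ : Ordinal.{u}} (hκ : κ < η) (hρ : ρ < Jo j κ)
    {X : Set Ordinal.{u}} : X ∈ ufl h κ ρ hκ hρ ↔ ρ.toZFSet ∈ j (os κ X) := Iff.rfl

end

/-- GE. -/
theorem ge (D : Cardinal.{u}) (hD : Extendible D.ord) (κ : Ordinal.{u}) (hDκ : D ≤ κ.cof) :
    ∃ W, WN D κ W := by
  obtain ⟨η, hη, θ, j, h⟩ := Pool.Agent.H20.HD.XA.xa D.ord hD κ
  have hκ : κ < η := hη
  have hDω : ω < D.ord := by
    obtain ⟨D', hD', -, -, h3⟩ := Pool.Agent.H4.HD.XB.X D.ord η θ j h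
    have : D = D' := Cardinal.ord_injective hD'
    subst this
    rwa [Cardinal.lt_ord, Ordinal.card_omega0]
  have hDω' : ℵ₀ < D := by
    rwa [Cardinal.lt_ord, Ordinal.card_omega0] at hDω
  have hlim : IsSuccLimit κ := by
    have h1 : ℵ₀ ≤ κ.cof := hDω'.le.trans hDκ
    exact Ordinal.aleph0_le_cof.1 h1
  obtain ⟨ρ, hρ, hρ1, hρ2, hρl, hρc⟩ := exists_rho h hκ hlim (Cardinal.ord_le_ord.2 hDκ)
  have hmem : ∀ X : Set Ordinal.{u}, X ∈ ufl h κ ρ hκ hρ ↔ ρ.toZFSet ∈ j (os κ X) :=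
    fun X => mem_ufl h hκ hρ
  refine ⟨ufl h κ ρ hκ hρ, ⟨?_, ?_, ?_, ?_, ?_, ?_⟩⟩
  · -- lt
    rw [hmem]
    have : os κ {ν | ν < κ} = κ.toZFSet := by
      ext z
      rw [mem_os, mem_toZFSet_iff]
      constructor
      · rintro ⟨a, ha, -, rfl⟩
        exact ⟨a, ha, rfl⟩
      · rintro ⟨a, ha, rfl⟩
        exact ⟨a, ha, ha, rfl⟩
    rw [this, h.ord hκ]
    exact toZFSet_mem_toZFSet_iff.2 hρ
  · -- gt
    intro ξ hξ
    rw [hmem]
    have h1 := tra h (R := fun z v => v 1 ∈ z → z ∈ v 2) ((Loc.mem 2 0).imp (Loc.mem 0 3)) hκ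
      [ξ.toZFSet, os κ {ν | ξ < ν}] (by simp [os_V h hκ, Gd.ord, hξ.trans hκ])
      (by
        intro a ha h1
        exact ord_mem_os.2 ⟨ha, toZFSet_mem_toZFSet_iff.1 h1⟩) ρ hρ
    refine h1 ?_
    show j ξ.toZFSet ∈ ρ.toZFSet
    rw [h.ord (hξ.trans hκ)]
    exact toZFSet_mem_toZFSet_iff.2 (hρ1 ξ hξ)
  · -- lim
    rw [hmem]
    have h1 := tra h (R := fun z v => LimF z → z ∈ v 1) ((loc_limF 0).imp (Loc.mem 0 2)) hκ
      [os κ {ν | IsSuccLimit ν}] (by simp [os_V h hκ])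
      (by
        intro a ha h1
        exact ord_mem_os.2 ⟨ha, limF_iff.1 h1⟩) ρ hρ
    exact h1 (limF_iff.2 hρl)
  · -- cf
    rw [hmem]
    have hla := Pool.Agent.H54.HD.LA.X.{u}
    have hL : Loc.{u} (fun v => (∃ m ∈ v 2, (m.IsOrdinal ∧ (v 0).IsOrdinal ∧
        Cf m.rank (v 0).rank)) → v 0 ∈ v 3) := by
      refine Loc.imp ?_ (Loc.mem 0 3)
      exact Loc.exMem (R := fun m v => m.IsOrdinal ∧ (v 0).IsOrdinal ∧ Cf m.rank (v 0).rank) 2
        ((hla.ren fun n => if n = 0 then 0 else 1).congr fun v => by simp)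
    have h1 := tra h (R := fun z v => (∃ m ∈ v 1, (m.IsOrdinal ∧ z.IsOrdinal ∧
        Cf m.rank z.rank)) → z ∈ v 2) hL hκ
      [D.ord.toZFSet, os κ {ν | ν.cof < D}] (by simp [os_V h hκ, Gd.ord, h.dlt])
      (by
        intro a ha h1
        obtain ⟨m, hm, -, -, h2⟩ := h1
        obtain ⟨b, hb, rfl⟩ := mem_toZFSet_iff.1 hm
        rw [rank_toZFSet, rank_toZFSet] at h2
        refine ord_mem_os.2 ⟨ha, ?_⟩
        show a.cof < D
        rw [← Cardinal.ord_lt_ord, h2]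
        exact hb) ρ hρ
    refine h1 ⟨ρ.cof.ord.toZFSet, ?_, ZFSet.isOrdinal_toZFSet _, ZFSet.isOrdinal_toZFSet _, ?_⟩
    · show ρ.cof.ord.toZFSet ∈ j D.ord.toZFSet
      rw [h.ord h.dlt]
      exact toZFSet_mem_toZFSet_iff.2 hρc
    · rw [rank_toZFSet, rank_toZFSet]
      rfl
  · -- cmp
    intro τ hτ X hX
    have hτη : τ < η := hτ.trans h.dlt
    rw [hmem]
    have h1 : ∀ i < τ, ZFSet.pair i.toZFSet ρ.toZFSet ∈ j (rs τ κ fun i ν => ν ∈ X i) := by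
      intro i hi
      have h2 := tra h (R := fun z v => z ∈ v 1 → ZFSet.pair (v 2) z ∈ v 3)
        ((Loc.mem 0 2).imp (loc_pmem 3 0 4)) hκ
        [os κ (X i), i.toZFSet, rs τ κ fun i ν => ν ∈ X i]
        (by simp [os_V h hκ, Gd.ord, hi.trans hτη, rs_V h hτη hκ])
        (by
          intro a ha h1
          exact pair_mem_rs.2 ⟨hi, ha, (ord_mem_os.1 h1).2⟩) ρ hρ
      have h3 := h2 ((hmem _).1 (hX i hi))
      have e : j i.toZFSet = i.toZFSet := h.fix i (hi.trans hτ)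
      change ZFSet.pair (j i.toZFSet) ρ.toZFSet ∈ _ at h3
      rwa [e] at h3
    have h4 := tra h (R := fun z v => (∀ i ∈ v 1, ZFSet.pair i z ∈ v 2) → z ∈ v 3)
      (by
        refine Loc.imp ?_ (Loc.mem 0 4)
        exact Loc.allMem (R := fun i v => ZFSet.pair i (v 0) ∈ v 3) 2 (loc_pmem 0 1 4)) hκ
      [τ.toZFSet, rs τ κ fun i ν => ν ∈ X i, os κ {ν | ∀ i < τ, ν ∈ X i}]
      (by simp [os_V h hκ, Gd.ord, hτη, rs_V h hτη hκ])
      (by
        intro a ha h1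
        refine ord_mem_os.2 ⟨ha, fun i hi => ?_⟩
        exact (pair_mem_rs.1 (h1 _ (toZFSet_mem_toZFSet_iff.2 hi))).2.2) ρ hρ
    refine h4 ?_
    intro i hi
    change i ∈ j τ.toZFSet at hi
    rw [h.fix τ hτ] at hi
    obtain ⟨i', hi', rfl⟩ := mem_toZFSet_iff.1 hi
    exact h1 i' hi'
  · -- wn
    intro g hg
    have h1 := tra h (R := fun z v => z ∈ v 1 → ∃ y ∈ z, ZFSet.pair z y ∈ v 2)
      (by
        refine Loc.imp (Loc.mem 0 2) ?_
        exact Loc.exMem (R := fun y v => ZFSet.pair (v 0) y ∈ v 3) 0 (loc_pmem 1 0 4)) hκ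
      [os κ {ν | g ν < ν}, rs κ κ fun ν y => y = g ν] (by simp [os_V h hκ, rs_V h hκ hκ])
      (by
        intro a ha h1
        have h2 : g a < a := (ord_mem_os.1 h1).2
        exact ⟨_, toZFSet_mem_toZFSet_iff.2 h2, pair_mem_rs.2 ⟨ha, h2.trans ha, rfl⟩⟩) ρ hρ
    obtain ⟨y0, hy0, hyg⟩ := h1 ((hmem _).1 hg)
    obtain ⟨y, hy, rfl⟩ := mem_toZFSet_iff.1 hy0
    obtain ⟨ξ, hξ, hyξ⟩ := hρ2 y hy
    refine ⟨ξ, hξ, ?_⟩
    rw [hmem]
    have h2 := tra h (R := fun z v => ∀ y ∈ v 1, ZFSet.pair z y ∈ v 2 → z ∈ v 3)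
      (Loc.allMem (R := fun y v => ZFSet.pair (v 0) y ∈ v 3 → v 0 ∈ v 4) 2
        ((loc_pmem 1 0 4).imp (Loc.mem 1 5))) hκ
      [ξ.toZFSet, rs κ κ fun ν y => y = g ν, os κ {ν | g ν ≤ ξ}]
      (by simp [os_V h hκ, rs_V h hκ hκ, Gd.ord, hξ.trans hκ])
      (by
        intro a ha y' hy' h1
        obtain ⟨y2, hy2, rfl⟩ := mem_toZFSet_iff.1 hy'
        have h3 := (pair_mem_rs.1 h1).2.2
        refine ord_mem_os.2 ⟨ha, ?_⟩
        show g a ≤ ξ
        rw [← h3]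
        exact hy2.le) ρ hρ
    refine h2 y.toZFSet ?_ hyg
    show y.toZFSet ∈ j ξ.toZFSet
    rw [h.ord (hξ.trans hκ)]
    exact toZFSet_mem_toZFSet_iff.2 hyξ

/-- GE. -/
theorem X : T_GE.{u} := fun D hD κ hκ => ge D hD κ hκ

end Pool.Agent.H54.NF.GE
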