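import Pool.Agent.H45.NF.Targets

/-!
# RG2. Reflection of two positive sets to points of one cofinality
(an adaptation of Pool/Agent/H7/HD/RG.lean)
-/

open Ordinal Cardinal Order Set
open scoped ZFSet

universe u

namespace Pool.Agent.H54.NF.RG2

open _root_.HD
open Pool.Agent.H33.HD.RF (lim_of_cof)

theorem rgw {D : Cardinal.{u}} {lam ξ : Ordinal.{u}} (hDreg : D.IsRegular) (hD0 : ℵ₀ < D)
    (W : Ultrafilter Ordinal.{u}) (hW : WN D lam W) (hDlam : D < lam.cof)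
    (hξD : ξ < D.ord) (Mf : Ordinal.{u} → Cardinal.{u}) (S : Ordinal.{u} → Set Ordinal.{u})
    (hS : ∀ ζ < ξ, (Mf ζ).IsRegular ∧ Mf ζ < D ∧ Pos (Mf ζ).ord lam (S ζ)) :
    ∃ N : Cardinal.{u}, N.IsRegular ∧ N < D ∧ (∀ ζ < ξ, Mf ζ < N) ∧
      Pos N.ord lam {ν | ∀ ζ < ξ, Pos (Mf ζ).ord ν (S ζ)} := by
  have hSR : T_SR.{u} := Pool.Agent.H48.HD.SR.sr
  have hPC : T_PC.{u} := Pool.Agent.H92.HD.pc
  have hcof : ℵ₀ < lam.cof := hD0.trans hDlam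
  have hlim : IsSuccLimit lam := lim_of_cof hcof
  by_contra hcon0
  have hcon : ∀ N : Cardinal.{u}, N.IsRegular → N < D → (∀ ζ < ξ, Mf ζ < N) →
      ¬ Pos N.ord lam {ν | ∀ ζ < ξ, Pos (Mf ζ).ord ν (S ζ)} :=
    fun N h1 h2 h3 h4 => hcon0 ⟨N, h1, h2, h3, h4⟩
  have h1 : ∀ i : Ordinal.{u}, ∃ C : Set Ordinal.{u}, Clb lam C ∧ (i.card.IsRegular → (∀ ζ < ξ, Mf ζ < i.card) →
      i.card < D → ∀ b < lam, b ∈ C → (∀ ζ < ξ, Pos (Mf ζ).ord b (S ζ)) → ¬ Cf i.card.ord b) := by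
    intro i
    by_cases h : i.card.IsRegular ∧ (∀ ζ < ξ, Mf ζ < i.card) ∧ i.card < D
    · have h2 := hcon i.card h.1 h.2.2 h.2.1
      rw [Pos] at h2
      rw [not_forall] at h2
      obtain ⟨C, h2⟩ := h2
      rw [Classical.not_imp] at h2
      obtain ⟨hC, h3⟩ := h2
      exact ⟨C, hC, fun _ _ _ b hb hbC hbS hcf => h3 ⟨b, hb, hbC, hbS, hcf⟩⟩
    · refine ⟨univ, ⟨fun a ha => ⟨succ a, hlim.succ_lt ha, lt_succ a, mem_univ _⟩,
        fun _ _ _ _ => mem_univ _⟩, fun h3 h4 h5 => absurd ⟨h3, h4, h5⟩ h⟩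
  choose Cs hCs hCs2 using h1
  have hC : Clb lam {x | ∀ i < D.ord, x ∈ Cs i} := by
    refine ⟨fun a ha => ?_, fun x hx hx0 h => ?_⟩
    · have hP : ∀ b < lam, ∃ b' < lam, b < b' ∧ ∀ i < D.ord, ∃ z ∈ Cs i, b < z ∧ z < b' := by
        intro b hb
        have h2 : ∀ i : Ordinal.{u}, ∃ z < lam, b < z ∧ z ∈ Cs i := fun i => (hCs i).unb b hb
        choose z hz1 hz2 hz3 using h2
        obtain ⟨s, hs, hs2⟩ := Pool.Agent.H3.HD.exists_bound (ρ := lam) (τ := D.ord)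
          (by rw [Cardinal.card_ord]; exact hDlam) z fun i _ => hz1 i
        refine ⟨max (succ s) (succ b), max_lt (hlim.succ_lt hs) (hlim.succ_lt hb),
          lt_of_lt_of_le (lt_succ b) (le_max_right _ _), fun i hi => ⟨z i, hz3 i, hz2 i, ?_⟩⟩
        exact lt_of_le_of_lt (hs2 i hi) (lt_of_lt_of_le (lt_succ s) (le_max_left _ _))
      obtain ⟨x, hx, s, hs0, hsx, hsP, hsy⟩ := Pool.Agent.H3.HD.exists_iter hcof
        (fun b b' => ∀ i < D.ord, ∃ z ∈ Cs i, b < z ∧ z < b') hP a ha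
      refine ⟨x, hx, by rw [← hs0]; exact hsx 0, fun i hi => ?_⟩
      refine (hCs i).cls x hx (lt_of_le_of_lt bot_le (hsx 0))
        fun y hy => ?_
      obtain ⟨n, hn⟩ := hsy y hy
      obtain ⟨z, hz, hz1, hz2⟩ := hsP n i hi
      exact ⟨z, hz2.trans (hsx (n + 1)), hn.trans hz1, hz⟩
    · intro i hi
      refine (hCs i).cls x hx hx0 fun y hy => ?_
      obtain ⟨z, hz, hyz, hzC⟩ := h y hy
      exact ⟨z, hz, hyz, hzC i hi⟩
  obtain ⟨C, hCd⟩ : ∃ C : Set Ordinal.{u}, C = {x | ∀ i < D.ord, x ∈ Cs i} := ⟨_, rfl⟩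
  rw [← hCd] at hC
  have hCW : C ∈ W := by
    by_contra hn
    have hn' : Cᶜ ∈ W := Ultrafilter.compl_mem_iff_notMem.2 hn
    obtain ⟨g, hg⟩ : ∃ g : Ordinal.{u} → Ordinal.{u},
        g = fun ν => sInf {y | ∀ z ∈ C, z < ν → z ≤ y} := ⟨_, rfl⟩
    have hgW : {ν | g ν < ν} ∈ W := by
      filter_upwards [hW.lt, hW.gt 0 hlim.bot_lt, hn'] with ν h3 h4 h5
      have h6 : ¬ ∀ y < ν, ∃ z < ν, y < z ∧ z ∈ C := fun h => h5 (hC.cls ν h3 h4 h)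
      push Not at h6
      obtain ⟨y, hy, h7⟩ := h6
      have h8 : g ν ≤ y := by
        rw [hg]
        refine csInf_le' fun z hz hzν => ?_
        by_contra hcon2
        exact h7 z hzν (not_le.1 hcon2) hz
      exact lt_of_le_of_lt h8 hy
    obtain ⟨x, hξ, hξW⟩ := hW.wn g hgW
    obtain ⟨z, hz, hξz, hzC⟩ := hC.unb x hξ
    obtain ⟨ν, hν1, hν2⟩ := W.nonempty_of_mem (Filter.inter_mem hξW (hW.gt z hz))
    have h9 : g ν ∈ {y | ∀ z ∈ C, z < ν → z ≤ y} := by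
      rw [hg]
      exact csInf_mem ⟨ν, fun z _ hz => hz.le⟩
    have h10 : z ≤ g ν := h9 z hzC hν2
    exact absurd (lt_of_lt_of_le hξz (h10.trans hν1)) (lt_irrefl _)
  have hSW' : {ν | ∀ ζ < ξ, ν ∈ {ν | Pos (Mf ζ).ord ν (S ζ)}} ∈ W :=
    hW.cmp ξ hξD (fun ζ => {ν | Pos (Mf ζ).ord ν (S ζ)}) fun ζ hζ =>
      hSR D (Mf ζ) lam W hDreg hD0 hDlam.le hW (hS ζ hζ).1 (hS ζ hζ).2.1 (S ζ) (hS ζ hζ).2.2
  obtain ⟨ν, ⟨⟨⟨hν1, hν2⟩, hν3⟩, hν4⟩, hν5⟩ := W.nonempty_of_mem (Filter.inter_mem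
    (Filter.inter_mem (Filter.inter_mem (Filter.inter_mem hCW hSW') hW.lim) hW.cf) hW.lt)
  have hM : ν.cof.IsRegular := Cardinal.isRegular_cof hν3
  have hNM : ∀ ζ < ξ, Mf ζ < ν.cof := fun ζ hζ => hPC (Mf ζ) ν (S ζ) (hS ζ hζ).1 hν3 (hν2 ζ hζ)
  have hMD : ν.cof < D := hν4
  rw [hCd] at hν1
  have h11 := hν1 ν.cof.ord (Cardinal.ord_lt_ord.2 hMD)
  have h12 := hCs2 ν.cof.ord
  rw [Cardinal.card_ord] at h12
  exact h12 hM hNM hMD ν hν5 h11 hν2 rfl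


theorem pf_RG2 : HD.NF.T_RG2.{u} := by
  intro D α W hDr hD0 hα hW A B hA hB
  obtain ⟨N, h1, h2, h3, h4⟩ := rgw (ξ := 2) hDr hD0 W hW hα (by
      have : (2 : Ordinal.{u}) < ω := Ordinal.natCast_lt_omega0 2
      refine this.trans_le ?_
      rw [← Cardinal.ord_aleph0]
      exact Cardinal.ord_le_ord.2 hD0.le) (fun _ => ℵ₀) (fun ζ => if ζ = 0 then A else B)
    (fun ζ hζ => ⟨Cardinal.isRegular_aleph0, hD0, by
      by_cases h : ζ = 0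
      · simp only [h, if_true]
        exact hA
      · simp only [h, if_false]
        exact hB⟩)
  refine ⟨N, h1, h3 0 (by norm_num), h2, h4.mono ?_⟩
  intro ν _ hν _
  refine ⟨?_, ?_⟩
  · have := hν 0 (by norm_num)
    rw [if_pos rfl] at this
    exact this
  · have := hν 1 (by norm_num)
    rw [if_neg one_ne_zero] at this
    exact this

end Pool.Agent.H54.NF.RG2
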