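import Pool.Agent.H45.NF.Targets

/-!
# SC. There are at most `2 ^ μ` classes.
-/

open Ordinal Cardinal Order Set
open scoped ZFSet

universe u

namespace Pool.Agent.H54.NF.SC

open _root_.HD
open _root_.HD.NF

theorem not_pos_empty {μ ρ : Ordinal.{u}} (hρ : IsSuccLimit ρ) :
    ¬ Pos μ ρ (∅ : Set Ordinal.{u}) := by
  intro h
  obtain ⟨b, -, -, h1, -⟩ := h univ ⟨fun a ha => ⟨succ a, hρ.succ_lt ha, Order.lt_succ a, trivial⟩,
    fun _ _ _ _ => trivial⟩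
  exact h1

theorem pf_SC (hSD : HD.NF.T_SD.{u}) : HD.NF.T_SC.{u} := by
  intro en M μ α c₀ c' hs R hR
  by_contra hnf
  rw [few_iff, not_lt] at hnf
  obtain ⟨τ, hτd⟩ : ∃ τ : Ordinal.{u}, τ = (succ ((2 : Cardinal.{u}) ^ μ)).ord := ⟨_, rfl⟩
  have hτc : τ.card = succ ((2 : Cardinal.{u}) ^ μ) := by rw [hτd, Cardinal.card_ord]
  have hcard : #(Iio τ) = Cardinal.lift.{u + 1} (succ ((2 : Cardinal.{u}) ^ μ)) := by
    rw [Cardinal.mk_Iio_ordinal, hτc]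
  rw [← hcard] at hnf
  obtain ⟨g⟩ := (Cardinal.le_def _ _).1 hnf
  classical
  obtain ⟨r, hr1, hr2⟩ : ∃ r : Ordinal.{u} → Ordinal.{u}, (∀ i < τ, r i ∈ R) ∧
      ∀ i < τ, ∀ i' < τ, i ≠ i' → r i ≠ r i' := by
    refine ⟨fun a => if h : a < τ then (g ⟨a, h⟩).1 else 0, fun i hi => ?_,
      fun i hi i' hi' hne he => ?_⟩
    · simp only [hi, dif_pos]
      exact (g ⟨i, hi⟩).2
    · simp only [hi, hi', dif_pos] at he
      have := g.injective (Subtype.ext he)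
      exact hne (congrArg Subtype.val this)
  have hαl : IsSuccLimit α := Ordinal.aleph0_le_cof.1 hs.unc.le
  have hlt : τ.card < α.cof := by rw [hτc]; exact hs.hμ
  -- the bad points
  have hbad : ∀ i < τ, ∀ i' < τ, ¬ Pos M.ord α
      {γ | i ≠ i' ∧ γ ∈ E en c' ∧ ¬ Sp en μ c₀ γ (r i) (r i')} := by
    intro i hi i' hi'
    by_cases hne : i = i'
    · intro hp
      refine not_pos_empty hαl (hp.mono ?_)
      rintro b - ⟨h1, -⟩ -
      exact absurd hne h1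
    · have h1 : Pos M.ord α {γ | γ ∈ E en c' ∧ Sp en μ c₀ γ (r i) (r i')} := by
        have := hR _ (hr1 i hi) _ (hr1 i' hi') (hr2 i hi i' hi' hne)
        unfold Eqv at this
        rwa [not_not] at this
      have hDS : DS {γ | Sp en μ c₀ γ (r i) (r i')} := by
        have h2 := (hSD en hs.hen μ c₀).2.1
        have h3 := DO.sect (P := fun x w => Sp en μ c₀ x (w 0) (w 1)) h2
          (fun n => if n = 0 then r i else r i')
        exact h3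
      obtain ⟨x, hx⟩ := (All.ea en hs.hen).2.2.1 _ hDS α
      have h4 := hs.ac'.ult x
      intro hp
      refine h4 ⟨h1.mono ?_, hp.mono ?_⟩
      · rintro b hb ⟨h5, h6⟩ -
        refine ⟨h5, ?_⟩
        rw [hx]
        exact ⟨h6, hb⟩
      · rintro b hb ⟨-, h5, h6⟩ -
        refine ⟨h5, ?_⟩
        rw [hx]
        exact fun h => h6 h.1
  have hU : ¬ Pos M.ord α {γ | ∃ i < τ, γ ∈ {γ | ∃ i' < τ, γ ∈
      {γ | i ≠ i' ∧ γ ∈ E en c' ∧ ¬ Sp en μ c₀ γ (r i) (r i')}}} := by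
    refine All.va M.ord α hs.unc τ hlt (fun i => {γ | ∃ i' < τ, γ ∈
      {γ | i ≠ i' ∧ γ ∈ E en c' ∧ ¬ Sp en μ c₀ γ (r i) (r i')}}) fun i hi => ?_
    exact All.va M.ord α hs.unc τ hlt (fun i' =>
      {γ | i ≠ i' ∧ γ ∈ E en c' ∧ ¬ Sp en μ c₀ γ (r i) (r i')}) fun i' hi' => hbad i hi i' hi'
  have hex : ∃ γ < α, γ ∈ E en c' ∧ ∀ i < τ, ∀ i' < τ, i ≠ i' → Sp en μ c₀ γ (r i) (r i') := by
    by_contra hcon
    push Not at hcon
    refine hU (hs.ac'.pos.mono ?_)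
    intro b hb h1 _
    obtain ⟨i, hi, i', hi', hne, h2⟩ := hcon b hb h1
    exact ⟨i, hi, i', hi', hne, h1, h2⟩
  obtain ⟨γ, -, hγ1, hγ2⟩ := hex
  have hm : Fa en μ c₀ γ (mn en μ c₀ γ) := csInf_mem (hs.hf γ hγ1)
  obtain ⟨⟨e, he⟩, -⟩ := hm
  -- the injection
  have hinj : Function.Injective fun i : Iio τ => {a : Iio μ.ord | e a.1 ∈ en (mn en μ c₀ γ) ∧
      Spl en c₀ (e a.1) γ ∧ (r i.1).toZFSet ∈ e a.1} := by
    intro i i' hii
    by_contra hne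
    have hne' : i.1 ≠ i'.1 := fun h => hne (Subtype.ext h)
    obtain ⟨x, hx1, hx2, hx3⟩ := hγ2 i.1 i.2 i'.1 i'.2 hne'
    obtain ⟨a, ha, rfl⟩ := he x hx1
    apply hx3
    have h1 : (⟨a, ha⟩ : Iio μ.ord) ∈ {a : Iio μ.ord | e a.1 ∈ en (mn en μ c₀ γ) ∧
      Spl en c₀ (e a.1) γ ∧ (r i.1).toZFSet ∈ e a.1} ↔ (⟨a, ha⟩ : Iio μ.ord) ∈
      {a : Iio μ.ord | e a.1 ∈ en (mn en μ c₀ γ) ∧
      Spl en c₀ (e a.1) γ ∧ (r i'.1).toZFSet ∈ e a.1} := by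
      rw [show {a : Iio μ.ord | e a.1 ∈ en (mn en μ c₀ γ) ∧
      Spl en c₀ (e a.1) γ ∧ (r i.1).toZFSet ∈ e a.1} = {a : Iio μ.ord | e a.1 ∈ en (mn en μ c₀ γ) ∧
      Spl en c₀ (e a.1) γ ∧ (r i'.1).toZFSet ∈ e a.1} from hii]
    constructor
    · intro h
      exact (h1.1 ⟨hx1, hx2, h⟩).2.2
    · intro h
      exact (h1.2 ⟨hx1, hx2, h⟩).2.2
  have h1 := Cardinal.mk_le_of_injective hinj
  rw [Cardinal.mk_set, hcard, Cardinal.mk_Iio_ordinal, Cardinal.card_ord] at h1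
  have h2 : (2 : Cardinal.{u + 1}) ^ Cardinal.lift.{u + 1} μ =
      Cardinal.lift.{u + 1} ((2 : Cardinal.{u}) ^ μ) := by
    rw [Cardinal.lift_power, Cardinal.lift_two]
  rw [h2, Cardinal.lift_le] at h1
  exact absurd h1 (not_le.2 (Order.lt_succ _))

end Pool.Agent.H54.NF.SC
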