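import Pool.Agent.H45.NF.Targets
import Pool.Agent.H7.HD.Rec

/-!
# TD. Threads through coherent sequences of HOD
-/

open Ordinal Cardinal Order Set
open scoped ZFSet

universe u

namespace HD.NF

/-- `b` is a limit point of the set `C` of ordinals -/
def LimPt (C : ZFSet.{u}) (b : Ordinal.{u}) : Prop :=
  0 < b ∧ ∀ y < b, ∃ z < b, y < z ∧ z.toZFSet ∈ C

/-- `F` is a coherent sequence of length `lam`: a function on `lam` such that for limit `a < lam`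
the set `F a` is closed and unbounded in `a` and `F b = F a ∩ b` for the limit points `b < a`
of `F a`. -/
structure Coh (lam : Ordinal.{u}) (F : ZFSet.{u}) : Prop where
  fn : ∃ y, ZFSet.IsFunc lam.toZFSet y F
  sub : ∀ a < lam, IsSuccLimit a → ∀ C, ZFSet.pair a.toZFSet C ∈ F → C ⊆ a.toZFSet
  club : ∀ a < lam, IsSuccLimit a → ∀ C, ZFSet.pair a.toZFSet C ∈ F → Clb a {b | b.toZFSet ∈ C}
  coh : ∀ a < lam, IsSuccLimit a → ∀ C, ZFSet.pair a.toZFSet C ∈ F → ∀ b < a, LimPt C b →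
    ZFSet.pair b.toZFSet (C ∩ b.toZFSet) ∈ F

/-- `T` is a thread of the sequence `F` of length `lam`: it is closed and unbounded in `lam`,
and `F b = T ∩ b` for the limit points `b < lam` of `T`. -/
structure Thr (lam : Ordinal.{u}) (F T : ZFSet.{u}) : Prop where
  sub : T ⊆ lam.toZFSet
  club : Clb lam {b | b.toZFSet ∈ T}
  thr : ∀ b < lam, LimPt T b → ZFSet.pair b.toZFSet (T ∩ b.toZFSet) ∈ F

/-- Every coherent sequence of length `lam` in HOD has a thread in HOD. -/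
def HThr (lam : Ordinal.{u}) : Prop := ∀ F, HOD F → Coh lam F → ∃ T, HOD T ∧ Thr lam F T

end HD.NF

namespace Pool.Agent.H54.NF.TD

open _root_.HD
open _root_.HD.NF

theorem limPt_lim {C : ZFSet.{u}} {b : Ordinal.{u}} (h : LimPt C b) : IsSuccLimit b := by
  rw [Ordinal.isSuccLimit_iff, Order.isSuccPrelimit_iff_succ_lt]
  refine ⟨h.1.ne', fun y hy => ?_⟩
  obtain ⟨z, hz, hyz, -⟩ := h.2 y hy
  exact (Order.succ_le_of_lt hyz).trans_lt hz

theorem hod_snd {F : ZFSet.{u}} (hF : HOD F) {x C : ZFSet.{u}} (h : ZFSet.pair x C ∈ F) :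
    HOD C := by
  have h1 : HOD (ZFSet.pair x C) := (hod_iff.1 hF).2 _ h
  unfold ZFSet.pair at h1
  have h2 : HOD ({x, C} : ZFSet.{u}) := (hod_iff.1 h1).2 _ (ZFSet.mem_pair.2 (Or.inr rfl))
  exact (hod_iff.1 h2).2 _ (ZFSet.mem_pair.2 (Or.inr rfl))

/-- existence of a thread in `V` -/
theorem thread {D : Cardinal.{u}} {lam : Ordinal.{u}} (hD0 : ℵ₀ < D) (hD : D ≤ lam.cof)
    {W : Ultrafilter Ordinal.{u}} (hW : WN D lam W) {F : ZFSet.{u}} (hF : Coh lam F) :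
    ∃ T, Thr lam F T ∧ ∀ ξ < lam, ∃ a < lam, IsSuccLimit a ∧ ∃ C, ZFSet.pair a.toZFSet C ∈ F ∧
      ξ < a ∧ T ∩ a.toZFSet = C := by
  have hcof : ℵ₀ < lam.cof := hD0.trans_le hD
  have hlim : IsSuccLimit lam := Ordinal.aleph0_le_cof.1 hcof.le
  obtain ⟨y, hy⟩ := hF.fn
  -- the values
  have hex : ∀ a : Ordinal.{u}, ∃ C : ZFSet.{u}, a < lam → ZFSet.pair a.toZFSet C ∈ F := by
    intro a
    by_cases ha : a < lam
    · obtain ⟨C, hC, -⟩ := hy.2 a.toZFSet (toZFSet_mem_toZFSet_iff.2 ha)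
      exact ⟨C, fun _ => hC⟩
    · exact ⟨∅, fun h => absurd h ha⟩
  choose c hc using hex
  have huniq : ∀ a < lam, ∀ C, ZFSet.pair a.toZFSet C ∈ F → C = c a := by
    intro a ha C hC
    obtain ⟨C', -, h⟩ := hy.2 a.toZFSet (toZFSet_mem_toZFSet_iff.2 ha)
    rw [h C hC, h (c a) (hc a ha)]
  -- the set of the points
  obtain ⟨P, hP⟩ : ∃ P : Set Ordinal.{u}, P = {a | a < lam ∧ {ν | a < ν ∧ LimPt (c ν) a} ∈ W} :=
    ⟨_, rfl⟩
  have hlimW : {ν | ν < lam ∧ IsSuccLimit ν} ∈ W := by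
    filter_upwards [hW.lt, hW.lim] with ν h1 h2 using ⟨h1, h2⟩
  have hPc : ∀ a ∈ P, {ν | ν < lam ∧ IsSuccLimit ν ∧ a < ν ∧ LimPt (c ν) a ∧
      c a = c ν ∩ a.toZFSet} ∈ W := by
    intro a ha
    rw [hP] at ha
    filter_upwards [hlimW, ha.2] with ν h1 h2
    refine ⟨h1.1, h1.2, h2.1, h2.2, ?_⟩
    exact (huniq a ha.1 _ (hF.coh ν h1.1 h1.2 (c ν) (hc ν h1.1) a h2.1 h2.2)).symm
  have hcohP : ∀ a ∈ P, ∀ b ∈ P, a < b → c a = c b ∩ a.toZFSet := by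
    intro a ha b hb hab
    obtain ⟨ν, h1, h2⟩ := W.nonempty_of_mem (Filter.inter_mem (hPc a ha) (hPc b hb))
    rw [h1.2.2.2.2, h2.2.2.2.2]
    ext z
    rw [ZFSet.mem_inter, ZFSet.mem_inter, ZFSet.mem_inter]
    constructor
    · rintro ⟨h3, h4⟩
      obtain ⟨z, hz, rfl⟩ := mem_toZFSet_iff.1 h4
      exact ⟨⟨h3, toZFSet_mem_toZFSet_iff.2 (hz.trans hab)⟩, h4⟩
    · rintro ⟨⟨h3, -⟩, h4⟩
      exact ⟨h3, h4⟩
  -- unboundedness
  have hstep : ∀ a : Ordinal.{u}, ∃ a' : Ordinal.{u}, a < lam → a' < lam ∧ a < a' ∧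
      {ν | ∃ z, a < z ∧ z < a' ∧ z.toZFSet ∈ c ν} ∈ W := by
    intro a
    by_cases ha : a < lam
    · have h1 : {ν | sInf {z | a < z ∧ z.toZFSet ∈ c ν} < ν} ∈ W := by
        filter_upwards [hlimW, hW.gt a ha] with ν h1 h2
        obtain ⟨z, hz, haz, hzc⟩ := (hF.club ν h1.1 h1.2 (c ν) (hc ν h1.1)).unb a h2
        exact lt_of_le_of_lt (csInf_le' ⟨haz, hzc⟩) hz
      obtain ⟨ξ, hξ, h2⟩ := hW.wn _ h1
      refine ⟨max (succ a) (succ ξ), fun _ => ⟨max_lt (hlim.succ_lt ha) (hlim.succ_lt hξ),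
        lt_of_lt_of_le (Order.lt_succ a) (le_max_left _ _), ?_⟩⟩
      filter_upwards [h2, hlimW, hW.gt a ha] with ν h3 h4 h5
      obtain ⟨z, hz, haz, hzc⟩ := (hF.club ν h4.1 h4.2 (c ν) (hc ν h4.1)).unb a h5
      have h6 : sInf {z | a < z ∧ z.toZFSet ∈ c ν} ∈ {z | a < z ∧ z.toZFSet ∈ c ν} :=
        csInf_mem ⟨z, haz, hzc⟩
      refine ⟨_, h6.1, ?_, h6.2⟩
      exact lt_of_le_of_lt h3 (lt_of_lt_of_le (Order.lt_succ ξ) (le_max_right _ _))
    · exact ⟨0, fun h => absurd h ha⟩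
  have hunb : ∀ a < lam, ∃ b ∈ P, a < b := by
    intro a ha
    obtain ⟨b, hbl, s, hs0, hsb, hss, hlb⟩ := Pool.Agent.H3.HD.exists_iter hcof
      (fun x x' => {ν | ∃ z, x < z ∧ z < x' ∧ z.toZFSet ∈ c ν} ∈ W) (fun x hx => by
        obtain ⟨x', h⟩ := hstep x
        exact ⟨x', (h hx).1, (h hx).2.1, (h hx).2.2⟩) a ha
    have hWn : {ν | ∀ n : ℕ, ∃ z, s n < z ∧ z < s (n + 1) ∧ z.toZFSet ∈ c ν} ∈ W := by
      have h1 := hW.cmp ω (by
        rw [← Cardinal.ord_aleph0]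
        exact Cardinal.ord_lt_ord.2 hD0) (fun i => {ν | ∀ n : ℕ, i = n →
          ∃ z, s n < z ∧ z < s (n + 1) ∧ z.toZFSet ∈ c ν}) (fun i hi => by
        obtain ⟨m, rfl⟩ := Ordinal.lt_omega0.1 hi
        filter_upwards [hss m] with ν h3
        intro n hn
        have : m = n := by exact_mod_cast hn
        subst this
        exact h3)
      filter_upwards [h1] with ν h2
      intro n
      exact h2 n (Ordinal.natCast_lt_omega0 n) n rfl
    refine ⟨b, ?_, by rw [← hs0]; exact hsb 0⟩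
    rw [hP]
    refine ⟨hbl, ?_⟩
    filter_upwards [hWn, hW.gt b hbl] with ν h1 h2
    refine ⟨h2, bot_le.trans_lt (hsb 0), fun y hy => ?_⟩
    obtain ⟨n, hn⟩ := hlb y hy
    obtain ⟨z, hz1, hz2, hz3⟩ := h1 n
    exact ⟨z, hz2.trans (hsb (n + 1)), hn.trans hz1, hz3⟩
  have hPlim : ∀ a ∈ P, IsSuccLimit a := by
    intro a ha
    obtain ⟨ν, h1⟩ := W.nonempty_of_mem (hPc a ha)
    exact limPt_lim h1.2.2.2.1
  have hPl : ∀ a ∈ P, a < lam := fun a ha => by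
    rw [hP] at ha
    exact ha.1
  -- the thread
  obtain ⟨T, hT⟩ : ∃ T : ZFSet.{u}, ∀ z, z ∈ T ↔ ∃ a ∈ P, z ∈ c a := by
    refine ⟨ZFSet.sep (fun z => ∃ a ∈ P, z ∈ c a) lam.toZFSet, fun z => ?_⟩
    rw [ZFSet.mem_sep]
    refine and_iff_right_of_imp ?_
    rintro ⟨a, ha, hz⟩
    obtain ⟨b, hb, rfl⟩ := mem_toZFSet_iff.1
      (hF.sub a (hPl a ha) (hPlim a ha) _ (hc a (hPl a ha)) hz)
    exact toZFSet_mem_toZFSet_iff.2 (hb.trans (hPl a ha))
  have hTa : ∀ a ∈ P, T ∩ a.toZFSet = c a := by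
    intro a ha
    ext z
    rw [ZFSet.mem_inter, hT]
    constructor
    · rintro ⟨⟨b, hb, hz⟩, hza⟩
      rcases lt_trichotomy a b with h | h | h
      · rw [hcohP a ha b hb h, ZFSet.mem_inter]
        exact ⟨hz, hza⟩
      · rw [h]; exact hz
      · rw [hcohP b hb a ha h, ZFSet.mem_inter] at hz
        exact hz.1
    · intro hz
      exact ⟨⟨a, ha, hz⟩, hF.sub a (hPl a ha) (hPlim a ha) _ (hc a (hPl a ha)) hz⟩
  have hmT : ∀ a ∈ P, ∀ b < a, (b.toZFSet ∈ T ↔ b.toZFSet ∈ c a) := by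
    intro a ha b hb
    rw [← hTa a ha, ZFSet.mem_inter]
    exact ⟨fun h => ⟨h, toZFSet_mem_toZFSet_iff.2 hb⟩, fun h => h.1⟩
  have hlimT : ∀ a ∈ P, ∀ b < a, LimPt T b → LimPt (c a) b := by
    intro a ha b hb h
    refine ⟨h.1, fun y hy => ?_⟩
    obtain ⟨z, hz, hyz, hzT⟩ := h.2 y hy
    exact ⟨z, hz, hyz, (hmT a ha z (hz.trans hb)).1 hzT⟩
  refine ⟨T, ⟨fun z hz => ?_, ⟨fun a ha => ?_, fun x hx hx0 h => ?_⟩, fun b hb h => ?_⟩, fun ξ hξ => ?_⟩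
  · obtain ⟨a, ha, hz⟩ := (hT z).1 hz
    obtain ⟨b, hb, rfl⟩ := mem_toZFSet_iff.1
      (hF.sub a (hPl a ha) (hPlim a ha) _ (hc a (hPl a ha)) hz)
    exact toZFSet_mem_toZFSet_iff.2 (hb.trans (hPl a ha))
  · obtain ⟨b, hb, hab⟩ := hunb a ha
    obtain ⟨z, hz, haz, hzc⟩ := (hF.club b (hPl b hb) (hPlim b hb) _ (hc b (hPl b hb))).unb a hab
    exact ⟨z, hz.trans (hPl b hb), haz, (hT z.toZFSet).2 ⟨b, hb, hzc⟩⟩
  · obtain ⟨b, hb, hab⟩ := hunb x hx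
    refine (hT x.toZFSet).2 ⟨b, hb, ?_⟩
    refine (hF.club b (hPl b hb) (hPlim b hb) _ (hc b (hPl b hb))).cls x hab hx0 fun y hy => ?_
    obtain ⟨z, hz, hyz, hzT⟩ := h y hy
    exact ⟨z, hz, hyz, (hmT b hb z (hz.trans hab)).1 hzT⟩
  · obtain ⟨a, ha, hba⟩ := hunb b hb
    have h1 := hF.coh a (hPl a ha) (hPlim a ha) _ (hc a (hPl a ha)) b hba (hlimT a ha b hba h)
    have h2 : T ∩ b.toZFSet = c a ∩ b.toZFSet := by
      ext z
      rw [ZFSet.mem_inter, ZFSet.mem_inter]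
      constructor
      · rintro ⟨h3, h4⟩
        obtain ⟨z', hz', rfl⟩ := mem_toZFSet_iff.1 h4
        exact ⟨(hmT a ha z' (hz'.trans hba)).1 h3, h4⟩
      · rintro ⟨h3, h4⟩
        obtain ⟨z', hz', rfl⟩ := mem_toZFSet_iff.1 h4
        exact ⟨(hmT a ha z' (hz'.trans hba)).2 h3, h4⟩
    rw [h2]
    exact h1
  · obtain ⟨a, ha, hξa⟩ := hunb ξ hξ
    exact ⟨a, hPl a ha, hPlim a ha, c a, hc a (hPl a ha), hξa, hTa a ha⟩

/-- TD. Threads in HOD. -/
theorem td {D : Cardinal.{u}} {lam : Ordinal.{u}} (hD0 : ℵ₀ < D) (hD : D ≤ lam.cof)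
    {W : Ultrafilter Ordinal.{u}} (hW : WN D lam W) (hN : NoNew lam) : HThr lam := by
  intro F hFH hF
  obtain ⟨T, hT, hTi⟩ := thread hD0 hD hW hF
  refine ⟨T, ?_, hT⟩
  classical
  -- the characteristic function
  obtain ⟨f, hf⟩ : ∃ f : ZFSet.{u}, f = gr (fun a => if a.toZFSet ∈ T then
    (1 : Ordinal.{u}).toZFSet else (0 : Ordinal.{u}).toZFSet) lam := ⟨_, rfl⟩
  have hpf : ∀ a b : Ordinal.{u}, ZFSet.pair a.toZFSet b.toZFSet ∈ f ↔ a < lam ∧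
      ((a.toZFSet ∈ T ∧ b = 1) ∨ (a.toZFSet ∉ T ∧ b = 0)) := by
    intro a b
    rw [hf, pair_mem_gr]
    refine and_congr_right fun _ => ?_
    by_cases h : a.toZFSet ∈ T
    · simp only [h, if_true, true_and, not_true, false_and, or_false]
      exact ⟨fun he => toZFSet_injective he, fun he => by rw [he]⟩
    · simp only [h, if_false, false_and, not_false_eq_true, true_and, false_or]
      exact ⟨fun he => toZFSet_injective he, fun he => by rw [he]⟩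
  have hfn : ZFSet.IsFunc lam.toZFSet (2 : Ordinal.{u}).toZFSet f := by
    have h2 : ∀ a : Ordinal.{u}, (if a.toZFSet ∈ T then
        (1 : Ordinal.{u}).toZFSet else (0 : Ordinal.{u}).toZFSet) ∈ (2 : Ordinal.{u}).toZFSet := by
      intro a
      by_cases h : a.toZFSet ∈ T
      · simp only [h, if_true]
        exact toZFSet_mem_toZFSet_iff.2 (by norm_num)
      · simp only [h, if_false]
        exact toZFSet_mem_toZFSet_iff.2 (by norm_num)
    refine ⟨fun p hp => ?_, fun z hz => ?_⟩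
    · rw [hf, mem_gr] at hp
      obtain ⟨b, hb, rfl⟩ := hp
      exact ZFSet.pair_mem_prod.2 ⟨toZFSet_mem_toZFSet_iff.2 hb, h2 b⟩
    · obtain ⟨a, ha, rfl⟩ := mem_toZFSet_iff.1 hz
      refine ⟨if a.toZFSet ∈ T then (1 : Ordinal.{u}).toZFSet else (0 : Ordinal.{u}).toZFSet,
        ?_, fun y hy => ?_⟩
      · show ZFSet.pair a.toZFSet _ ∈ f
        rw [hf]
        exact pair_mem_gr.2 ⟨ha, rfl⟩
      · rw [hf] at hy
        exact (pair_mem_gr.1 hy).2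
  have hH : HOD f := by
    refine (hN f _ hfn).1 fun ξ hξ => ?_
    obtain ⟨a, ha, hal, C, hC, hξa, hTC⟩ := hTi ξ hξ
    have hCH : HOD C := hod_snd hFH hC
    have hDS : DS {b : Ordinal.{u} | b.toZFSet ∈ C} := hCH.od.ds
    have hDR : DR fun b i => b < ξ ∧ ((b.toZFSet ∈ C ∧ i = 1) ∨ (b.toZFSet ∉ C ∧ i = 0)) :=
      (DO.ltc 0 ξ).and (((DO.s1 (X := fun b => b.toZFSet ∈ C) hDS 0).and (DO.eqc 1 1)).or
        ((DO.s1 (X := fun b => b.toZFSet ∈ C) hDS 0).not.and (DO.eqc 1 0)))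
    have he : rst f ξ = rs ξ 2 fun b i => b < ξ ∧
        ((b.toZFSet ∈ C ∧ i = 1) ∨ (b.toZFSet ∉ C ∧ i = 0)) := by
      have hbC : ∀ b < ξ, (b.toZFSet ∈ C ↔ b.toZFSet ∈ T) := by
        intro b hb
        rw [← hTC, ZFSet.mem_inter]
        exact ⟨fun h => h.1, fun h => ⟨h, toZFSet_mem_toZFSet_iff.2 (hb.trans hξa)⟩⟩
      ext p
      rw [mem_rs]
      unfold rst
      rw [ZFSet.mem_sep]
      constructor
      · rintro ⟨h1, b, hb, y, rfl⟩
        have h2 := h1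
        rw [hf, pair_mem_gr] at h2
        have hy : ∃ i : Ordinal.{u}, y = i.toZFSet := by
          rw [h2.2]
          by_cases h : b.toZFSet ∈ T
          · exact ⟨1, by simp only [h, if_true]⟩
          · exact ⟨0, by simp only [h, if_false]⟩
        obtain ⟨i, rfl⟩ := hy
        have h3 := (hpf b i).1 h1
        refine ⟨b, hb, i, ?_, ⟨hb, ?_⟩, rfl⟩
        · rcases h3.2 with h | h
          · rw [h.2]; norm_num
          · rw [h.2]; norm_num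
        · rw [hbC b hb]
          exact h3.2
      · rintro ⟨b, hb, i, hi, ⟨-, h1⟩, rfl⟩
        refine ⟨(hpf b i).2 ⟨hb.trans hξ, ?_⟩, b, hb, _, rfl⟩
        rw [← hbC b hb]
        exact h1
    rw [he]
    exact hod_rs hDR _ _
  have h1 : DS {a : Ordinal.{u} | ZFSet.pair a.toZFSet (1 : Ordinal.{u}).toZFSet ∈ f} :=
    DO.sect1 (R := fun i a => ZFSet.pair a.toZFSet i.toZFSet ∈ f)
      (DO.s2 (X := fun a i => ZFSet.pair a.toZFSet i.toZFSet ∈ f) hH.od.dr 1 0) 1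
  have h2 : T = os lam {a : Ordinal.{u} | ZFSet.pair a.toZFSet (1 : Ordinal.{u}).toZFSet ∈ f} := by
    ext z
    rw [mem_os]
    constructor
    · intro hz
      obtain ⟨a, ha, rfl⟩ := mem_toZFSet_iff.1 (hT.sub hz)
      exact ⟨a, ha, (hpf a 1).2 ⟨ha, Or.inl ⟨hz, rfl⟩⟩, rfl⟩
    · rintro ⟨a, ha, h, rfl⟩
      rcases ((hpf a 1).1 h).2 with h | h
      · exact h.1
      · exact absurd h.2 one_ne_zero
  rw [h2]
  exact hod_os h1 lam

end Pool.Agent.H54.NF.TD
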