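import Pool.Agent.H45.NF.Asm
import Pool.Agent.H54.NF.TD

/-!
# Assembly: no new sequences, and threads through coherent sequences
-/

open Ordinal Cardinal Order Set
open scoped ZFSet

universe u

namespace Pool.Agent.H54.NF.NFT

open _root_.HD HD.NF
open Pool.Agent.H45.NF.Asm

/-- The theorem for extendible cardinals. -/
theorem nft1 (δ : Ordinal.{u}) (hδ : Extendible δ) : CaseA δ ∨ ∃ δ₀ < δ, ∀ θ : Ordinal.{u},
    δ₀ < θ.cof.ord → NoNew θ ∧ HThr θ := by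
  by_cases hA : CaseA δ
  · exact Or.inl hA
  obtain ⟨E, hE⟩ := asm_good All.xa All.xb All.yl hδ hA
  have h0 : 0 < δ := by
    rw [hE.1]
    have := Cardinal.ord_lt_ord.2 hE.2.2.2.1
    exact lt_of_le_of_lt bot_le this
  obtain ⟨D, hDδ, -, hD, hW⟩ := gr δ hδ hA 0 h0
  refine Or.inr ⟨D.ord, hDδ, fun θ hθ => ?_⟩
  have hθ' : D < θ.cof := Cardinal.ord_lt_ord.1 hθ
  obtain ⟨en, hen⟩ := All.en.{u}
  obtain ⟨W, hW⟩ := hW θ hθ'.le
  have hN : NoNew θ := by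
    refine nn en D θ ⟨hen, hD.2.2.1, hθ', fun M hM hMD X hX hXp => ?_, ?_⟩
    · exact All.hb2 en hen D M θ hD.1 hD.2.1 hD.2.2.1 hM hMD hθ'
        (All.ha _ _ _ (hD.2.2.2 M hM hMD θ hθ'.le)) X hX hXp
    · exact rg2 D θ W hD.1 hD.2.2.1 hθ' hW
  exact ⟨hN, Pool.Agent.H54.NF.TD.td hD.2.2.1 hθ'.le hW hN⟩

/-- The theorem for strongly compact cardinals. -/
theorem nft2 (D K₀ : Cardinal.{u}) (hD : StrComp D) (hDK₀ : D < K₀) (hS : OmSM K₀)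
    (θ : Ordinal.{u}) (hθ : K₀ < θ.cof) : NoNew θ ∧ HThr θ := by
  have hN : NoNew θ := nf2 D K₀ hD hDK₀ hS θ hθ
  obtain ⟨W, hW⟩ := Pool.Agent.H74.HD.SW.sw D hD θ (hDK₀.trans hθ).le
  exact ⟨hN, Pool.Agent.H54.NF.TD.td hD.2.1 (hDK₀.trans hθ).le hW hN⟩

end Pool.Agent.H54.NF.NFT
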